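import Pool.Agent.Helper22.NP.Stmts2

namespace Pool.Agent.Helper22.NP

open scoped Classical

/-- restriction of the system to a subgroup -/
theorem GS.sub {G k M : Type} [Field k] [Field M] [Group G] [MulSemiringAction G M]
    {ι : k →+* M} {v : AddValuation M (WithTop ℤ)} (h : GS G ι v) (H : Subgroup G) : GS H ι v where
  rv := h.rv
  inv g x := h.inv g x
  fix g c := h.fix g c
  fai g hg := Subtype.ext (h.fai g hg)
  wild g x hx := h.wild g x hx

theorem ram_coe {G M : Type} [Field M] [Group G] [MulSemiringAction G M]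
    (v : AddValuation M (WithTop ℤ)) (H : Subgroup G) (g : H) :
    ram (G := H) v g = ram v (g : G) := rfl

theorem ram_sub {G M : Type} [Field M] [Group G] [MulSemiringAction G M]
    (v : AddValuation M (WithTop ℤ)) (H : Subgroup G) :
    (ram (G := H) v) = fun g : H => ram v (g : G) := rfl

/-- every element of the image is at most the level -/
theorem le_lev {G : Type} [Finite G] (i : G → ℕ) (S : Set G) {g : G} (hg : g ∈ S) :
    i g ≤ lev i S :=
  le_csSup ((Set.toFinite _).bddAbove) (Set.mem_image_of_mem i hg)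

/-- the level is attained -/
theorem lev_mem {G : Type} [Finite G] (i : G → ℕ) (S : Set G) (hS : S.Nonempty) :
    ∃ g ∈ S, i g = lev i S := by
  have h := Nat.sSup_mem (hS.image i) ((Set.toFinite (i '' S)).bddAbove)
  obtain ⟨g, hg, h2⟩ := h
  exact ⟨g, hg, h2⟩

theorem lev_le {G : Type} [Finite G] (i : G → ℕ) (S : Set G) (n : ℕ) (h : ∀ g ∈ S, i g ≤ n) :
    lev i S ≤ n := by
  by_cases hS : S.Nonempty
  · obtain ⟨g, hg, h2⟩ := lev_mem i S hS
    rw [← h2]; exact h g hg
  · rw [Set.not_nonempty_iff_eq_empty] at hS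
    subst hS
    simp [lev]

theorem lev_mono {G : Type} [Finite G] (i : G → ℕ) {S T : Set G} (h : S ⊆ T) :
    lev i S ≤ lev i T :=
  lev_le i S _ fun _ hg => le_lev i T (h hg)

/-- characteristic of the big field -/
theorem charP_of_ring {p : ℕ} {k M : Type} [Field k] [Field M] [CharP k p] (ι : k →+* M) :
    CharP M p :=
  charP_of_injective_ringHom ι.injective p

/-- Gal-action as ring automorphism fits `GS` -/
theorem GS.toRingEquiv {G k M : Type} [Field k] [Field M] [Group G] [MulSemiringAction G M]
    {ι : k →+* M} {v : AddValuation M (WithTop ℤ)} (h : GS G ι v) (g : G) :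
    (∀ x, v (MulSemiringAction.toRingEquiv G M g x) = v x) ∧
    (∀ c, MulSemiringAction.toRingEquiv G M g (ι c) = ι c) ∧
    (∀ x, x ≠ 0 → v x < v (MulSemiringAction.toRingEquiv G M g x - x)) :=
  ⟨fun x => h.inv g x, fun c => h.fix g c, fun x hx => h.wild g x hx⟩

end Pool.Agent.Helper22.NP
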