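import Mathlib

namespace Pool.Agent.Helper22.NP

open scoped Classical

/-- normalised valuation of a finite extension `L` of `k((t))`, `k` algebraically closed:
the order (in `t`) of the norm; `⊤` at `0`. -/
noncomputable def ordL (k L : Type) [Field k] [Field L] [Algebra (LaurentSeries k) L]
    (x : L) : WithTop ℤ :=
  if x = 0 then ⊤ else ((HahnSeries.order (Algebra.norm (LaurentSeries k) x) : ℤ) : WithTop ℤ)

/-- the ramification group `G_i` in the lower numbering -/
def lowGrp (k L : Type) [Field k] [Field L] [Algebra (LaurentSeries k) L] (i : ℕ) :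
    Set (L ≃ₐ[LaurentSeries k] L) :=
  {σ | ∀ x : L, 0 ≤ ordL k L x → (((i + 1 : ℕ) : ℤ) : WithTop ℤ) ≤ ordL k L (σ x - x)}

/-- the conductor: the largest upper break `φ(b) = (|G_1| + ... + |G_b|) / |G_0|`, where `b` is
the largest lower break -/
noncomputable def conductor (k L : Type) [Field k] [Field L] [Algebra (LaurentSeries k) L] : ℚ :=
  (∑ i ∈ Finset.Icc 1 (sSup {i : ℕ | ∃ σ ∈ lowGrp k L i, σ ≠ 1}), ((lowGrp k L i).ncard : ℚ)) /
    ((lowGrp k L 0).ncard : ℚ)

/-- the set of conductors of `P`-Galois extensions of `k((t))` -/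
def conds (k P : Type) [Field k] [Group P] : Set ℚ :=
  {c | ∃ (L : Type) (_ : Field L) (_ : Algebra (LaurentSeries k) L)
      (_ : FiniteDimensional (LaurentSeries k) L) (_ : IsGalois (LaurentSeries k) L),
      Nonempty ((L ≃ₐ[LaurentSeries k] L) ≃* P) ∧ conductor k L = c}

/-- `N` is the number `N_P`: the smallest positive `N` such that all but finitely many conductors
of `P`-Galois extensions of `k((t))` lie in `(1/N) ℤ` -/
def IsNP (k P : Type) [Field k] [Group P] (N : ℕ) : Prop :=
  IsLeast {N : ℕ | 0 < N ∧ {c : ℚ | c ∈ conds k P ∧ ¬ ∃ m : ℤ, c * N = m}.Finite} N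

/-- the embedding of the coefficient field -/
noncomputable def iotaL (k L : Type) [Field k] [Field L] [Algebra (LaurentSeries k) L] : k →+* L :=
  (algebraMap (LaurentSeries k) L).comp HahnSeries.C

/-- discretely valued field `L` (normalised additive valuation `v`) with coefficient field `k` -/
structure RV {k L : Type} [Field k] [Field L] (ι : k →+* L) (v : AddValuation L (WithTop ℤ)) :
    Prop where
  uni : ∃ π : L, v π = 1
  cst : ∀ c : k, c ≠ 0 → v (ι c) = 0
  res : ∀ x : L, 0 ≤ v x → ∃ c : k, 0 < v (x - ι c)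

/-- a group `G` acting faithfully and wildly on a discretely valued field with coefficient
field `k` -/
structure GS (G : Type) {k M : Type} [Field k] [Field M] [Group G] [MulSemiringAction G M]
    (ι : k →+* M) (v : AddValuation M (WithTop ℤ)) : Prop where
  rv : RV ι v
  inv : ∀ (g : G) (x : M), v (g • x) = v x
  fix : ∀ (g : G) (c : k), g • ι c = ι c
  fai : ∀ g : G, (∀ x : M, g • x = x) → g = 1
  wild : ∀ (g : G) (x : M), x ≠ 0 → v x < v (g • x - x)

/-- the function `i_G(g) = min v (g x - x)`, `x` integral (junk value `0` at `g = 1`) -/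
noncomputable def ram {G M : Type} [Field M] [Group G] [MulSemiringAction G M]
    (v : AddValuation M (WithTop ℤ)) (g : G) : ℕ :=
  sInf {n : ℕ | ∃ x : M, 0 ≤ v x ∧ v (g • x - x) = ((n : ℤ) : WithTop ℤ)}

/-- `min (i g) x` with the convention `i 1 = ∞` -/
noncomputable def mi {G : Type} [Group G] (i : G → ℕ) (x : ℕ) (g : G) : ℕ :=
  if g = 1 then x else min (i g) x

/-- the Herbrand function (shifted): `Φ(x) = |G|⁻¹ ∑ min (i g) x`, that is `1 + φ(x - 1)` -/
noncomputable def Phi {G : Type} [Group G] [Fintype G] (i : G → ℕ) (x : ℕ) : ℚ :=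
  (∑ g : G, (mi i x g : ℚ)) / (Fintype.card G : ℚ)

/-- the largest value of `i` on a set -/
noncomputable def lev {G : Type} (i : G → ℕ) (S : Set G) : ℕ := sSup (i '' S)

/-- abstract ramification functions -/
structure RF (G : Type) [Group G] (i : G → ℕ) : Prop where
  two : ∀ g : G, g ≠ 1 → 2 ≤ i g
  inv : ∀ g : G, i g⁻¹ = i g
  conj : ∀ g h : G, i (h * g * h⁻¹) = i g
  ult : ∀ g h : G, g ≠ 1 → h ≠ 1 → g * h ≠ 1 → min (i g) (i h) ≤ i (g * h)

/-- `Ω` is a `p`-closed Galois extension of `K` -/
structure PCl (p : ℕ) (K Ω : Type) [Field K] [Field Ω] [Algebra K Ω] : Prop where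
  gal : IsGalois K Ω
  pgr : ∀ M : IntermediateField K Ω, FiniteDimensional K M → IsGalois K M →
    ∃ n : ℕ, Module.finrank K M = p ^ n
  as : ∀ x : Ω, ∃ y : Ω, y ^ p - y = x

/-- a homomorphism from the Galois group of `Ω/K` of finite level -/
def FL {K Ω P : Type} [Field K] [Field Ω] [Algebra K Ω] [Group P]
    (ρ : (Ω ≃ₐ[K] Ω) →* P) : Prop :=
  ∃ M : IntermediateField K Ω, FiniteDimensional K M ∧ IsGalois K M ∧ M.fixingSubgroup ≤ ρ.ker

end Pool.Agent.Helper22.NP
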