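import Pool.Agent.Helper22.NP.Defs

namespace Pool.Agent.Helper22.NP

open scoped Classical

/-! ## A. Foundations -/

/-- VAL: the order of the norm is an additive valuation (completeness of `k((t))`). -/
def ST_VAL : Prop :=
  ∀ (k L : Type) [Field k] [Field L] [Algebra (LaurentSeries k) L]
    [FiniteDimensional (LaurentSeries k) L],
    ∃ v : AddValuation L (WithTop ℤ), ∀ x, v x = ordL k L x

/-- RES: constants are units and the residue field is `k`. -/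
def ST_RES : Prop :=
  ∀ (k L : Type) [Field k] [IsAlgClosed k] [Field L] [Algebra (LaurentSeries k) L]
    [FiniteDimensional (LaurentSeries k) L] [IsGalois (LaurentSeries k) L]
    (v : AddValuation L (WithTop ℤ)), (∀ x, v x = ordL k L x) →
    (∀ c : k, c ≠ 0 → v (iotaL k L c) = 0) ∧
    (∀ x : L, 0 ≤ v x → ∃ c : k, 0 < v (x - iotaL k L c))

/-- UNI: total ramification of `L / k((t))`. -/
def ST_UNI : Prop :=
  ∀ (k L : Type) [Field k] [IsAlgClosed k] [Field L] [Algebra (LaurentSeries k) L]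
    [FiniteDimensional (LaurentSeries k) L] [IsGalois (LaurentSeries k) L]
    (v : AddValuation L (WithTop ℤ)), (∀ x, v x = ordL k L x) → ∃ π : L, v π = 1

/-- WLD: a `p`-group acts wildly in characteristic `p`. -/
def ST_WLD : Prop :=
  ∀ (p : ℕ) [Fact p.Prime] (G k M : Type) [Field k] [CharP k p] [Field M] [Group G]
    [MulSemiringAction G M] (ι : k →+* M) (v : AddValuation M (WithTop ℤ)),
    RV ι v → (∀ (g : G) (x : M), v (g • x) = v x) → (∀ (g : G) (c : k), g • ι c = ι c) →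
    IsPGroup p G → ∀ (g : G) (x : M), x ≠ 0 → v x < v (g • x - x)

/-- GSK: every finite Galois `p`-extension of `k((t))` is such a system. -/
def ST_GSK : Prop :=
  ∀ (p : ℕ) [Fact p.Prime] (k L : Type) [Field k] [IsAlgClosed k] [CharP k p] [Field L]
    [Algebra (LaurentSeries k) L] [FiniteDimensional (LaurentSeries k) L]
    [IsGalois (LaurentSeries k) L], IsPGroup p (L ≃ₐ[LaurentSeries k] L) →
    ∃ v : AddValuation L (WithTop ℤ), (∀ x, v x = ordL k L x) ∧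
      GS (L ≃ₐ[LaurentSeries k] L) (iotaL k L) v

/-- TRM: `M / M^H` is totally ramified. -/
def ST_TRM : Prop :=
  ∀ (G k M : Type) [Field k] [Field M] [Group G] [Finite G] [MulSemiringAction G M]
    (ι : k →+* M) (v : AddValuation M (WithTop ℤ)), GS G ι v → ∀ H : Subgroup G,
    (∃ x : M, (∀ h ∈ H, h • x = x) ∧ v x = (((Nat.card H : ℕ) : ℤ) : WithTop ℤ)) ∧
    (∀ x : M, x ≠ 0 → (∀ h ∈ H, h • x = x) →
      ∃ n : ℤ, v x = ((n * (Nat.card H : ℤ) : ℤ) : WithTop ℤ))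

/-- FIX: the fixed field of `H` is again discretely valued with coefficient field `k`. -/
def ST_FIX : Prop :=
  ∀ (G k M : Type) [Field k] [Field M] [Group G] [Finite G] [MulSemiringAction G M]
    (ι : k →+* M) (v : AddValuation M (WithTop ℤ)), GS G ι v → ∀ H : Subgroup G,
    ∃ (ιF : k →+* FixedPoints.subfield H M)
      (vF : AddValuation (FixedPoints.subfield H M) (WithTop ℤ)),
      (∀ c, ((ιF c : FixedPoints.subfield H M) : M) = ι c) ∧
      (∀ x : FixedPoints.subfield H M, v (x : M) = Nat.card H • vF x) ∧ RV ιF vF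

/-- SHI: how much a wild automorphism moves an element. -/
def ST_SHI : Prop :=
  ∀ (p : ℕ) [Fact p.Prime] (k M : Type) [Field k] [CharP k p] [Field M] (ι : k →+* M)
    (v : AddValuation M (WithTop ℤ)), RV ι v → ∀ σ : M ≃+* M, (∀ x, v (σ x) = v x) →
    (∀ c, σ (ι c) = ι c) → (∀ x, x ≠ 0 → v x < v (σ x - x)) → ∀ (π : M) (i : ℤ), v π = 1 →
    v (σ π - π) = (i : WithTop ℤ) → ∀ (x : M) (n : ℤ), v x = (n : WithTop ℤ) →
    ((n + i - 1 : ℤ) : WithTop ℤ) ≤ v (σ x - x) ∧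
    (¬ (p : ℤ) ∣ n → v (σ x - x) = ((n + i - 1 : ℤ) : WithTop ℤ))

/-- RAM: `ram` is computed by any uniformizer. -/
def ST_RAM : Prop :=
  ∀ (G k M : Type) [Field k] [Field M] [Group G] [Finite G] [MulSemiringAction G M]
    (ι : k →+* M) (v : AddValuation M (WithTop ℤ)), GS G ι v → ∀ g : G, g ≠ 1 →
    2 ≤ ram v g ∧ (∀ π : M, v π = 1 → v (g • π - π) = (((ram v g : ℕ) : ℤ) : WithTop ℤ)) ∧
    (∀ x : M, 0 ≤ v x → (((ram v g : ℕ) : ℤ) : WithTop ℤ) ≤ v (g • x - x))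

/-- RFI: `ram` is a ramification function. -/
def ST_RFI : Prop :=
  ∀ (G k M : Type) [Field k] [Field M] [Group G] [Finite G] [MulSemiringAction G M]
    (ι : k →+* M) (v : AddValuation M (WithTop ℤ)), GS G ι v → RF G (ram (G := G) v)

/-- HRB: Herbrand's coset formula (for an arbitrary subgroup). -/
def ST_HRB : Prop :=
  ∀ (G k M : Type) [Field k] [Field M] [Group G] [Fintype G] [MulSemiringAction G M]
    (ι : k →+* M) (v : AddValuation M (WithTop ℤ)), GS G ι v → ∀ (H : Subgroup G) (x : M),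
    (∀ h ∈ H, h • x = x) → v x = (((Nat.card H : ℕ) : ℤ) : WithTop ℤ) → ∀ σ : G, σ ∉ H →
    v (σ • x - x) = (((∑ h : H, ram v (σ * (h : G)) : ℕ) : ℤ) : WithTop ℤ)

/-- DIF: integrality of the different exponent of `M^H / M^G`. -/
def ST_DIF : Prop :=
  ∀ (G k M : Type) [Field k] [Field M] [Group G] [Fintype G] [MulSemiringAction G M]
    (ι : k →+* M) (v : AddValuation M (WithTop ℤ)), GS G ι v → ∀ (H : Subgroup G),
    Nat.card H ∣ ∑ g ∈ Finset.univ.filter (fun g : G => g ∉ H), ram v g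

/-- PMO: monotonicity of the Herbrand function. -/
def ST_PMO : Prop :=
  ∀ (G : Type) [Group G] [Fintype G] (i : G → ℕ) (x y : ℕ),
    (x < y → Phi i x < Phi i y) ∧ Phi i x ≤ x

/-- PHQ: the Herbrand function of a quotient. -/
def ST_PHQ : Prop :=
  ∀ (G : Type) [Group G] [Fintype G] (i : G → ℕ), RF G i → ∀ (H : Subgroup G) [H.Normal]
    (i' : G ⧸ H → ℕ),
    (∀ g : G, g ∉ H → Nat.card H * i' (g : G ⧸ H) = ∑ h : H, i (g * (h : G))) →
    ∀ S : Set (G ⧸ H), S.Nonempty → (1 : G ⧸ H) ∉ S →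
    Phi i' (lev i' S) = Phi i (lev i {g : G | (g : G ⧸ H) ∈ S})

/-- REL: Herbrand functions of a group and a subgroup. -/
def ST_REL : Prop :=
  ∀ (G : Type) [Group G] [Fintype G] (i : G → ℕ) (H : Subgroup G) (x : ℕ),
    Phi i x * Nat.card G ≤ Phi (fun h : H => i (h : G)) x * Nat.card H +
      ∑ g ∈ Finset.univ.filter (fun g : G => g ∉ H), i g ∧
    Phi (fun h : H => i (h : G)) x * Nat.card H ≤ Phi i x * Nat.card G ∧
    ((∀ g : G, g ∉ H → i g ≤ x) → Phi i x * Nat.card G =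
      Phi (fun h : H => i (h : G)) x * Nat.card H +
      ∑ g ∈ Finset.univ.filter (fun g : G => g ∉ H), i g)

/-- CND: the conductor in terms of `Phi`. -/
def ST_CND : Prop :=
  ∀ (k L : Type) [Field k] [Field L] [Algebra (LaurentSeries k) L]
    [FiniteDimensional (LaurentSeries k) L] [IsGalois (LaurentSeries k) L]
    (v : AddValuation L (WithTop ℤ)), (∀ x, v x = ordL k L x) →
    GS (L ≃ₐ[LaurentSeries k] L) (iotaL k L) v →
    (∃ g : L ≃ₐ[LaurentSeries k] L, g ≠ 1) →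
    conductor k L + 1 = Phi (ram (G := L ≃ₐ[LaurentSeries k] L) v)
      (lev (ram (G := L ≃ₐ[LaurentSeries k] L) v) {g | g ≠ 1})

/-- CQ: the conductor of a Galois subextension, computed upstairs. -/
def ST_CQ : Prop :=
  ∀ (p : ℕ) [Fact p.Prime] (k M : Type) [Field k] [IsAlgClosed k] [CharP k p] [Field M]
    [Algebra (LaurentSeries k) M] [FiniteDimensional (LaurentSeries k) M]
    [IsGalois (LaurentSeries k) M], IsPGroup p (M ≃ₐ[LaurentSeries k] M) →
    ∀ (v : AddValuation M (WithTop ℤ)), (∀ x, v x = ordL k M x) →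
    GS (M ≃ₐ[LaurentSeries k] M) (iotaL k M) v →
    ∀ (E : IntermediateField (LaurentSeries k) M) [IsGalois (LaurentSeries k) E], E ≠ ⊥ →
    conductor k E + 1 = Phi (ram (G := M ≃ₐ[LaurentSeries k] M) v)
      (lev (ram (G := M ≃ₐ[LaurentSeries k] M) v) {g | g ∉ E.fixingSubgroup})

/-- STB: the function `ram` of `M` computed in a bigger extension `M'`. -/
def ST_STB : Prop :=
  ∀ (p : ℕ) [Fact p.Prime] (k M : Type) [Field k] [IsAlgClosed k] [CharP k p] [Field M]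
    [Algebra (LaurentSeries k) M] [FiniteDimensional (LaurentSeries k) M]
    [IsGalois (LaurentSeries k) M], IsPGroup p (M ≃ₐ[LaurentSeries k] M) →
    ∀ (v : AddValuation M (WithTop ℤ)), (∀ x, v x = ordL k M x) →
    GS (M ≃ₐ[LaurentSeries k] M) (iotaL k M) v →
    ∀ (E : IntermediateField (LaurentSeries k) M) [IsGalois (LaurentSeries k) E]
      (vE : AddValuation E (WithTop ℤ)), (∀ x, vE x = ordL k E x) →
    (∀ x : E, v (x : M) = Nat.card E.fixingSubgroup • vE x) ∧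
    ∀ g : M ≃ₐ[LaurentSeries k] M, g ∉ E.fixingSubgroup →
      Nat.card E.fixingSubgroup *
        ram (G := E ≃ₐ[LaurentSeries k] E) vE (AlgEquiv.restrictNormalHom E g) =
      ∑ h : E.fixingSubgroup, ram (G := M ≃ₐ[LaurentSeries k] M) v (g * (h : _))

/-! ## B. Hasse-Arf -/

/-- SN0: Sen's elements: for every integer `a` there is `x` with `v x = a` and
`v (σ x - x) = a + i(a) - 1`, `i(a) = v (σ^a π - π)`. -/
def ST_SN0 : Prop :=
  ∀ (p : ℕ) [Fact p.Prime] (k M : Type) [Field k] [CharP k p] [Field M] (ι : k →+* M)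
    (v : AddValuation M (WithTop ℤ)), RV ι v → ∀ σ : M ≃+* M, (∀ x, v (σ x) = v x) →
    (∀ c, σ (ι c) = ι c) → (∀ x, x ≠ 0 → v x < v (σ x - x)) → ∀ (π : M) (n : ℕ) (i : ℕ → ℤ),
    v π = 1 → (∀ j ≤ n, v ((σ ^ (p ^ j)) π - π) = (i j : WithTop ℤ)) →
    (∀ j < n, i j < i (j + 1)) ∧
    ∀ a : ℤ, ∃ x : M, v x = (a : WithTop ℤ) ∧
      (∀ j ≤ n, (p : ℤ) ^ j ∣ a → ¬ (p : ℤ) ^ (j + 1) ∣ a →
        v (σ x - x) = ((a + i j - 1 : ℤ) : WithTop ℤ)) ∧
      ((p : ℤ) ^ n ∣ a → ((a + i n - 1 : ℤ) : WithTop ℤ) ≤ v (σ x - x))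

/-- SEN: Sen's theorem. -/
def ST_SEN : Prop :=
  ∀ (p : ℕ) [Fact p.Prime] (k M : Type) [Field k] [CharP k p] [Field M] (ι : k →+* M)
    (v : AddValuation M (WithTop ℤ)), RV ι v → ∀ σ : M ≃+* M, (∀ x, v (σ x) = v x) →
    (∀ c, σ (ι c) = ι c) → (∀ x, x ≠ 0 → v x < v (σ x - x)) → ∀ (π : M) (n : ℕ) (i : ℕ → ℤ),
    v π = 1 → (∀ j ≤ n, v ((σ ^ (p ^ j)) π - π) = (i j : WithTop ℤ)) →
    ∀ j < n, (p : ℤ) ^ (j + 1) ∣ i (j + 1) - i j

/-- HAR: Hasse-Arf for cyclic quotients. -/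
def ST_HAR : Prop :=
  ∀ (p : ℕ) [Fact p.Prime] (G k M : Type) [Field k] [CharP k p] [Field M] [Group G] [Fintype G]
    [MulSemiringAction G M] (ι : k →+* M) (v : AddValuation M (WithTop ℤ)), GS G ι v →
    IsPGroup p G → ∀ (H : Subgroup G) [H.Normal], H ≠ ⊤ → IsCyclic (G ⧸ H) →
    ∃ m : ℤ, Phi (ram (G := G) v) (lev (ram (G := G) v) {g | g ∉ H}) = m

/-- LCH: linear characters detecting a central subgroup. -/
def ST_LCH : Prop :=
  ∀ (G : Type) [Group G] [Finite G] (N H : Subgroup G), N ≤ Subgroup.center G → N ≠ ⊥ →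
    N ⊓ ⁅H, H⁆ = ⊥ → ∃ H' : Subgroup G, N ≤ H' ∧ H'.index ∣ H.index ∧
    ∀ x ∈ N, x ≠ 1 → ∃ ψ : H' →* ℂˣ, ∃ h : H', (h : G) = x ∧ ψ h ≠ 1

/-- UPP: the upper bound for the denominator of the last upper break. -/
def ST_UPP : Prop :=
  ∀ (p : ℕ) [Fact p.Prime] (G k M : Type) [Field k] [CharP k p] [Field M] [Group G] [Fintype G]
    [Nontrivial G] [MulSemiringAction G M] (ι : k →+* M) (v : AddValuation M (WithTop ℤ)),
    GS G ι v → IsPGroup p G → ∀ D : ℕ,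
    (∀ N : Subgroup G, N ≤ Subgroup.center G → Nat.card N = p →
      ∃ H : Subgroup G, N ⊓ ⁅H, H⁆ = ⊥ ∧ H.index ∣ D) →
    ∃ m : ℤ, Phi (ram (G := G) v) (lev (ram (G := G) v) {g | g ≠ 1}) * D = m

/-- NPU: the upper bound for conductors of `P`-extensions. -/
def ST_NPU : Prop :=
  ∀ (p : ℕ) [Fact p.Prime] (k P : Type) [Field k] [IsAlgClosed k] [CharP k p] [Group P] [Finite P]
    [Nontrivial P], IsPGroup p P → ∀ D : ℕ,
    (∀ N : Subgroup P, N ≤ Subgroup.center P → Nat.card N = p →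
      ∃ H : Subgroup P, N ⊓ ⁅H, H⁆ = ⊥ ∧ H.index ∣ D) →
    ∀ c ∈ conds k P, ∃ m : ℤ, c * D = m

/-! ## C. Artin-Schreier theory -/

/-- RED: removing poles of order divisible by `p`. -/
def ST_RED : Prop :=
  ∀ (p : ℕ) [Fact p.Prime] (k M : Type) [Field k] [IsAlgClosed k] [CharP k p] [Field M]
    (ι : k →+* M) (v : AddValuation M (WithTop ℤ)), RV ι v → ∀ x : M,
    ∃ w : M, 0 ≤ v (x - (w ^ p - w)) ∨
      ∃ n : ℕ, ¬ p ∣ n ∧ v (x - (w ^ p - w)) = ((-(n : ℤ) : ℤ) : WithTop ℤ) ∧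
        v x ≤ ((-(n : ℤ) : ℤ) : WithTop ℤ)

/-- ASL: level of an Artin-Schreier generator. -/
def ST_ASL : Prop :=
  ∀ (p : ℕ) [Fact p.Prime] (G k M : Type) [Field k] [CharP k p] [Field M] [Group G] [Fintype G]
    [MulSemiringAction G M] (ι : k →+* M) (v : AddValuation M (WithTop ℤ)), GS G ι v →
    IsPGroup p G → ∀ (y : M) (m : ℕ), (∀ g : G, g • (y ^ p - y) = y ^ p - y) →
    v (y ^ p - y) = ((-((m * Nat.card G : ℕ) : ℤ) : ℤ) : WithTop ℤ) → 0 < m → ¬ p ∣ m →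
    (∃ g : G, g • y ≠ y) ∧
    Phi (ram (G := G) v) (lev (ram (G := G) v) {g | g • y ≠ y}) = m + 1

/-- ASB: upper bound for the level of an Artin-Schreier generator. -/
def ST_ASB : Prop :=
  ∀ (p : ℕ) [Fact p.Prime] (G k M : Type) [Field k] [IsAlgClosed k] [CharP k p] [Field M] [Group G]
    [Fintype G] [MulSemiringAction G M] (ι : k →+* M) (v : AddValuation M (WithTop ℤ)), GS G ι v →
    IsPGroup p G → ∀ (y : M) (m : ℕ), (∀ g : G, g • (y ^ p - y) = y ^ p - y) →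
    ((-((m * Nat.card G : ℕ) : ℤ) : ℤ) : WithTop ℤ) ≤ v (y ^ p - y) →
    Phi (ram (G := G) v) (lev (ram (G := G) v) {g | g • y ≠ y}) ≤ m + 1

/-- ASG: reduced Artin-Schreier generators of characters of order `p`. -/
def ST_ASG : Prop :=
  ∀ (p : ℕ) [Fact p.Prime] (G k M : Type) [Field k] [IsAlgClosed k] [CharP k p] [Field M] [Group G]
    [Fintype G] [MulSemiringAction G M] (ι : k →+* M) (v : AddValuation M (WithTop ℤ)), GS G ι v →
    IsPGroup p G → ∀ (χ : G →* Multiplicative (ZMod p)), χ ≠ 1 →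
    ∃ (z : M) (j : ℕ), 0 < j ∧ ¬ p ∣ j ∧
      (∀ g : G, g • z = z + (((Multiplicative.toAdd (χ g)).val : ℕ) : M)) ∧
      v (z ^ p - z) = ((-((j * Nat.card G : ℕ) : ℤ) : ℤ) : WithTop ℤ)

/-- DSU: the function `ram` outside a normal subgroup with a single break. -/
def ST_DSU : Prop :=
  ∀ (p : ℕ) [Fact p.Prime] (G k M : Type) [Field k] [CharP k p] [Field M] [Group G] [Fintype G]
    [MulSemiringAction G M] (ι : k →+* M) (v : AddValuation M (WithTop ℤ)), GS G ι v →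
    ∀ (H : Subgroup G) [H.Normal] (X : M) (J : ℕ), ¬ p ∣ J → (∀ h ∈ H, h • X = X) →
    v X = ((-((J * Nat.card H : ℕ) : ℤ) : ℤ) : WithTop ℤ) →
    (∀ g : G, g ∉ H → v (g • X - X) = 0) →
    (∀ g : G, g ∉ H → ∑ h : H, ram v (g * (h : G)) = Nat.card H * (J + 1)) ∧
    ∑ g ∈ Finset.univ.filter (fun g : G => g ∉ H), ram v g =
      (Nat.card G - Nat.card H) * (J + 1)

/-- EXP: the explicit class with conductor of large denominator. -/
def ST_EXP : Prop :=
  ∀ (p : ℕ) [Fact p.Prime], p ≠ 2 → ∀ (k M : Type) [Field k] [IsAlgClosed k] [CharP k p] [Field M]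
    (ι : k →+* M) (v : AddValuation M (WithTop ℤ)), RV ι v → ∀ (s l J : ℕ) (X : M) (κ : k),
    0 < s → 0 < l → 0 < J → κ ≠ 0 → v X = ((-(J : ℤ) : ℤ) : WithTop ℤ) →
    ∃ w : M, v (ι κ * ((X ^ (p ^ s) - X) ^ (p * l + 1) * X +
        (2 : M)⁻¹ * (X ^ (p ^ s) - X) ^ (p * l + 2)) - (w ^ p - w)) =
      ((-((J * (p * p ^ s * l + 2) : ℕ) : ℤ) : ℤ) : WithTop ℤ)

/-- CP2: cyclic extensions of degree `p^2`: `u_2 ≥ p u_1`. -/
def ST_CP2 : Prop :=
  ∀ (p : ℕ) [Fact p.Prime] (G k M : Type) [Field k] [IsAlgClosed k] [CharP k p] [Field M] [Group G]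
    [Fintype G] [MulSemiringAction G M] (ι : k →+* M) (v : AddValuation M (WithTop ℤ)), GS G ι v →
    IsPGroup p G → ∀ ω : G →* ℂˣ, (∀ g, ω g ^ (p ^ 2) = 1) → (∃ g, ω g ^ p ≠ 1) →
    (p : ℚ) * (Phi (ram (G := G) v) (lev (ram (G := G) v) {g | ω g ^ p ≠ 1}) - 1) ≤
      Phi (ram (G := G) v) (lev (ram (G := G) v) {g | ω g ≠ 1}) - 1

end Pool.Agent.Helper22.NP
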