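import Pool.Agent.Helper22.NP.Stmts

namespace Pool.Agent.Helper22.NP

open scoped Classical

/-! ## D. The pro-`p` Galois group -/

/-- every finite Galois `p`-extension of `K` embeds in `Ω` -/
def EmbP (p : ℕ) (K Ω : Type) [Field K] [Field Ω] [Algebra K Ω] : Prop :=
  ∀ (L : Type) [Field L] [Algebra K L] [FiniteDimensional K L] [IsGalois K L],
    IsPGroup p (L ≃ₐ[K] L) → Nonempty (L →ₐ[K] Ω)

/-- elements of `Gal(M/K)` having a lift on which `ρ` is nontrivial -/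
def mv {K Ω P : Type} [Field K] [Field Ω] [Algebra K Ω] [Group P] (ρ : (Ω ≃ₐ[K] Ω) →* P)
    (M : IntermediateField K Ω) [Normal K M] : Set (M ≃ₐ[K] M) :=
  {τ | ∃ σ : Ω ≃ₐ[K] Ω, AlgEquiv.restrictNormalHom M σ = τ ∧ ρ σ ≠ 1}

/-- `c` is the conductor of `ρ`, computed at every finite level -/
def CondAt (k Ω : Type) {P : Type} [Field k] [Field Ω] [Algebra (LaurentSeries k) Ω] [Group P]
    (ρ : (Ω ≃ₐ[LaurentSeries k] Ω) →* P) (c : ℚ) : Prop :=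
  ∀ (M : IntermediateField (LaurentSeries k) Ω) [FiniteDimensional (LaurentSeries k) M]
    [IsGalois (LaurentSeries k) M], M.fixingSubgroup ≤ ρ.ker →
    ∀ v : AddValuation M (WithTop ℤ), (∀ x, v x = ordL k M x) →
    c + 1 = Phi (ram (G := M ≃ₐ[LaurentSeries k] M) v)
      (lev (ram (G := M ≃ₐ[LaurentSeries k] M) v) (mv ρ M))

/-- OMG: existence of a `p`-closed extension. -/
def ST_OMG : Prop :=
  ∀ (p : ℕ) [Fact p.Prime] (K : Type) [Field K] [CharP K p],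
    ∃ (Ω : Type) (_ : Field Ω) (_ : Algebra K Ω), PCl p K Ω ∧ EmbP p K Ω

/-- LVL: common finite levels. -/
def ST_LVL : Prop :=
  ∀ (p : ℕ) [Fact p.Prime] (K Ω : Type) [Field K] [Field Ω] [Algebra K Ω], PCl p K Ω →
    ∀ (M₁ M₂ : IntermediateField K Ω), FiniteDimensional K M₁ → IsGalois K M₁ →
    FiniteDimensional K M₂ → IsGalois K M₂ → ∀ S : Finset Ω,
    ∃ M : IntermediateField K Ω, FiniteDimensional K M ∧ IsGalois K M ∧ M₁ ≤ M ∧ M₂ ≤ M ∧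
      (∀ x ∈ S, x ∈ M) ∧ IsPGroup p (M ≃ₐ[K] M)

/-- EM1: central embedding problems with kernel of order `p` are solvable. -/
def ST_EM1 : Prop :=
  ∀ (p : ℕ) [Fact p.Prime] (K Ω : Type) [Field K] [CharP K p] [Field Ω] [Algebra K Ω],
    PCl p K Ω → ∀ (P Q : Type) [Group P] [Finite P] [Group Q] [Finite Q] (f : P →* Q),
    Function.Surjective f → f.ker ≤ Subgroup.center P → Nat.card f.ker = p →
    ∀ ρ : (Ω ≃ₐ[K] Ω) →* Q, FL ρ → ∃ ρ' : (Ω ≃ₐ[K] Ω) →* P, FL ρ' ∧ ∀ σ, f (ρ' σ) = ρ σ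

/-- EMB: embedding problems with `p`-groups are (weakly) solvable. -/
def ST_EMB : Prop :=
  ∀ (p : ℕ) [Fact p.Prime] (K Ω : Type) [Field K] [CharP K p] [Field Ω] [Algebra K Ω],
    PCl p K Ω → ∀ (P Q : Type) [Group P] [Finite P] [Group Q] [Finite Q] (f : P →* Q),
    IsPGroup p P → Function.Surjective f →
    ∀ ρ : (Ω ≃ₐ[K] Ω) →* Q, FL ρ → ∃ ρ' : (Ω ≃ₐ[K] Ω) →* P, FL ρ' ∧ ∀ σ, f (ρ' σ) = ρ σ

/-- FRS: a subgroup of a `p`-group not contained in the kernel of a nontrivial character of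
order `p` is everything. -/
def ST_FRS : Prop :=
  ∀ (p : ℕ) [Fact p.Prime] (P : Type) [Group P] [Finite P], IsPGroup p P → ∀ I : Subgroup P,
    (∀ χ : P →* Multiplicative (ZMod p), (∀ x ∈ I, χ x = 1) → χ = 1) → I = ⊤

/-- RHO: from homomorphisms to conductors. -/
def ST_RHO : Prop :=
  ∀ (p : ℕ) [Fact p.Prime] (k Ω : Type) [Field k] [IsAlgClosed k] [CharP k p] [Field Ω]
    [Algebra (LaurentSeries k) Ω], PCl p (LaurentSeries k) Ω → ∀ (P : Type) [Group P] [Finite P]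
    [Nontrivial P] (ρ : (Ω ≃ₐ[LaurentSeries k] Ω) →* P), FL ρ → Function.Surjective ρ →
    ∃ c ∈ conds k P, CondAt k Ω ρ c

/-- ROH: from extensions to homomorphisms. -/
def ST_ROH : Prop :=
  ∀ (p : ℕ) [Fact p.Prime] (k Ω : Type) [Field k] [IsAlgClosed k] [CharP k p] [Field Ω]
    [Algebra (LaurentSeries k) Ω], PCl p (LaurentSeries k) Ω → EmbP p (LaurentSeries k) Ω →
    ∀ (P : Type) [Group P] [Finite P] [Nontrivial P], IsPGroup p P → ∀ c ∈ conds k P,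
    ∃ ρ : (Ω ≃ₐ[LaurentSeries k] Ω) →* P, FL ρ ∧ Function.Surjective ρ ∧ CondAt k Ω ρ c

/-! ## E. The lower bound -/

/-- the image of `ZMod p` in a ring of characteristic `p` -/
def zc (p : ℕ) (R : Type) [NatCast R] (x : Multiplicative (ZMod p)) : R :=
  (((Multiplicative.toAdd x).val : ℕ) : R)

/-- data for the lower bound -/
structure LBD (p : ℕ) (k P I J R : Type) [Field k] [Group P] [Fintype I] [Fintype J]
    [Fintype R] where
  s : ℕ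
  hs : 0 < s
  α : Multiplicative (I → ZMod p) →* P
  γ : Multiplicative (J → ZMod p) →* P
  γinj : Function.Injective γ
  γcen : ∀ n, γ n ∈ Subgroup.center P
  γcom : ∀ n, γ n ∈ commutator P
  ζ : I → J → (P →* Multiplicative (ZMod p))
  rel : ∀ (g : P) (n : Multiplicative (I → ZMod p)), g⁻¹ * α n * g =
    α n * γ (Multiplicative.ofAdd fun j =>
      ∑ i, (Multiplicative.toAdd n) i * Multiplicative.toAdd (ζ i j g))
  ξ : P →* Multiplicative k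
  η : R → (P →* Multiplicative (ZMod p))
  ξran : ∀ g, (Multiplicative.toAdd (ξ g)) ^ (p ^ s) = Multiplicative.toAdd (ξ g)
  sur : ∀ a : k, a ^ (p ^ s) = a → ∀ c : R → Multiplicative (ZMod p),
    ∃ g, Multiplicative.toAdd (ξ g) = a ∧ ∀ i, η i g = c i
  fr : ∀ χ : P →* Multiplicative (ZMod p), ∀ g, ξ g = 1 → (∀ i, η i g = 1) → χ g = 1
  b : I → k
  bind : ∀ n : I → Multiplicative (ZMod p), ∑ i, zc p k (n i) * b i = 0 → n = 1
  J0 : Set J
  w : J → k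
  θ : J → I → R → ZMod p
  h0 : ∀ j ∈ J0, ∀ g, ∑ i, b i * zc p k (ζ i j g) = w j * Multiplicative.toAdd (ξ g)
  h1 : ∀ j, j ∉ J0 → ∀ i g, Multiplicative.toAdd (ζ i j g) =
    ∑ r, θ j i r * Multiplicative.toAdd (η r g)
  hw : ∃ j ∈ J0, w j ≠ 0

/-- the element `c t^n` of `Ω` -/
noncomputable def tz (k Ω : Type) [Field k] [Field Ω] [Algebra (LaurentSeries k) Ω]
    (n : ℤ) (c : k) : Ω :=
  algebraMap (LaurentSeries k) Ω (HahnSeries.single n c)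

/-- SUR: every finite `p`-group is a quotient of `Gal(Ω/K)`. -/
def ST_SUR : Prop :=
  ∀ (p : ℕ) [Fact p.Prime] (k P Ω : Type) [Field k] [IsAlgClosed k] [CharP k p] [Group P]
    [Finite P] [Field Ω] [Algebra (LaurentSeries k) Ω], PCl p (LaurentSeries k) Ω →
    IsPGroup p P → ∃ ρ : (Ω ≃ₐ[LaurentSeries k] Ω) →* P, FL ρ ∧ Function.Surjective ρ

/-- FQX: solving `X^q - X = a` in `Ω`. -/
def ST_FQX : Prop :=
  ∀ (p : ℕ) [Fact p.Prime] (k Ω : Type) [Field k] [IsAlgClosed k] [CharP k p] [Field Ω]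
    [Algebra (LaurentSeries k) Ω], PCl p (LaurentSeries k) Ω → ∀ (s : ℕ) (a : Ω), 0 < s →
    (∃ X : Ω, X ^ (p ^ s) - X = a) ∧
    (∀ b : Ω, b ^ (p ^ s) = b → ∃ c : k, c ^ (p ^ s) = c ∧ b = tz k Ω 0 c)

/-- HZB: the conductor of `y^p - y = x z`, `z` an Artin-Schreier generator with break `j`. -/
def ST_HZB : Prop :=
  ∀ (p : ℕ) [Fact p.Prime] (G k M : Type) [Field k] [IsAlgClosed k] [CharP k p] [Field M] [Group G]
    [Fintype G] [MulSemiringAction G M] (ι : k →+* M) (v : AddValuation M (WithTop ℤ)), GS G ι v →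
    IsPGroup p G → ∀ (z x y : M) (j n : ℕ) (χ : G →* Multiplicative (ZMod p)), χ ≠ 1 → ¬ p ∣ j →
    (∀ g : G, g • z = z + zc p M (χ g)) →
    v (z ^ p - z) = ((-((j * Nat.card G : ℕ) : ℤ) : ℤ) : WithTop ℤ) → (∀ g : G, g • x = x) →
    ((-((n * Nat.card G : ℕ) : ℤ) : ℤ) : WithTop ℤ) ≤ v x → y ^ p - y = x * z →
    Phi (ram (G := G) v) (lev (ram (G := G) v) {g | g • z = z ∧ g • y ≠ y}) ≤ n + j + 1

/-- TL1: the level of the distinguished class. -/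
def ST_TL1 : Prop :=
  ∀ (p : ℕ) [Fact p.Prime], p ≠ 2 → ∀ (G k M : Type) [Field k] [IsAlgClosed k] [CharP k p]
    [Field M] [Group G] [Fintype G] [MulSemiringAction G M] (ι : k →+* M)
    (v : AddValuation M (WithTop ℤ)), GS G ι v → IsPGroup p G →
    ∀ (s m l : ℕ) (X Y : M) (κ : k) (ξ : G →* Multiplicative k), 0 < s → ¬ p ∣ m → 1 < m → 0 < l →
    κ ≠ 0 → (∀ g : G, g • X = X + ι (Multiplicative.toAdd (ξ g))) →
    (∀ a : k, a ^ (p ^ s) = a → ∃ g, Multiplicative.toAdd (ξ g) = a) →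
    (∀ g, (Multiplicative.toAdd (ξ g)) ^ (p ^ s) = Multiplicative.toAdd (ξ g)) →
    v (X ^ (p ^ s) - X) = ((-((m * Nat.card G : ℕ) : ℤ) : ℤ) : WithTop ℤ) →
    Y ^ p - Y = ι κ * ((X ^ (p ^ s) - X) ^ (p * l + 1) * X +
        (2 : M)⁻¹ * (X ^ (p ^ s) - X) ^ (p * l + 2)) →
    (∃ g : G, g • X = X ∧ g • Y ≠ Y) ∧
    Phi (ram (G := G) v) (lev (ram (G := G) v) {g | g • X = X ∧ g • Y ≠ Y}) =
      (m : ℚ) * (p * l + 1) + (m : ℚ) / (p : ℚ) ^ s + 1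

/-- EXT: enlarging a family of characters so that it detects the Frattini quotient. -/
def ST_EXT : Prop :=
  ∀ (p : ℕ) [Fact p.Prime] (k P R : Type) [Field k] [CharP k p] [Group P] [Finite P] [Fintype R],
    IsPGroup p P → ∀ (q : ℕ) (ξ : P →* Multiplicative k) (η : R → (P →* Multiplicative (ZMod p))),
    (∃ s, q = p ^ s) → (∀ g, (Multiplicative.toAdd (ξ g)) ^ q = Multiplicative.toAdd (ξ g)) →
    (∀ a : k, a ^ q = a → ∀ c : R → Multiplicative (ZMod p),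
      ∃ g, Multiplicative.toAdd (ξ g) = a ∧ ∀ i, η i g = c i) →
    ∃ (n : ℕ) (η' : Fin n → (P →* Multiplicative (ZMod p))),
      (∀ a : k, a ^ q = a → ∀ (c : R → Multiplicative (ZMod p))
        (c' : Fin n → Multiplicative (ZMod p)),
        ∃ g, Multiplicative.toAdd (ξ g) = a ∧ (∀ i, η i g = c i) ∧ ∀ i, η' i g = c' i) ∧
      ∀ χ : P →* Multiplicative (ZMod p), ∀ g, ξ g = 1 → (∀ i, η i g = 1) →
        (∀ i, η' i g = 1) → χ g = 1

/-- the base homomorphism and its Artin-Schreier generators -/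
structure Base {p : ℕ} {k P I J R : Type} [Field k] [Group P] [Fintype I] [Fintype J]
    [Fintype R] (D : LBD p k P I J R) (Ω : Type) [Field Ω] [Algebra (LaurentSeries k) Ω]
    (m : ℕ) (ρ : (Ω ≃ₐ[LaurentSeries k] Ω) →* P) (X : Ω) (z : R → Ω) (c : R → k) : Prop where
  fl : FL ρ
  sur : Function.Surjective ρ
  cne : ∀ r, c r ≠ 0
  hX : X ^ (p ^ D.s) - X = tz k Ω (-(m : ℤ)) 1
  hz : ∀ r, z r ^ p - z r = tz k Ω (-1) (c r)
  aX : ∀ σ : Ω ≃ₐ[LaurentSeries k] Ω, σ X = X + tz k Ω 0 (Multiplicative.toAdd (D.ξ (ρ σ)))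
  az : ∀ (σ : Ω ≃ₐ[LaurentSeries k] Ω) (r : R), σ (z r) = z r + zc p Ω (D.η r (ρ σ))

/-- EXR: existence of the base. -/
def ST_EXR : Prop :=
  ∀ (p : ℕ) [Fact p.Prime] (k P I J R Ω : Type) [Field k] [IsAlgClosed k] [CharP k p] [Group P]
    [Finite P] [Fintype I] [Fintype J] [Fintype R] [Field Ω] [Algebra (LaurentSeries k) Ω],
    PCl p (LaurentSeries k) Ω → IsPGroup p P → ∀ (D : LBD p k P I J R) (m : ℕ), ¬ p ∣ m →
    ∃ (ρ : (Ω ≃ₐ[LaurentSeries k] Ω) →* P) (X : Ω) (z : R → Ω) (c : R → k), Base D Ω m ρ X z c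

/-- the twist -/
structure Twist {p : ℕ} {k P I J R : Type} [Field k] [Group P] [Fintype I] [Fintype J]
    [Fintype R] (D : LBD p k P I J R) (Ω : Type) [Field Ω] [Algebra (LaurentSeries k) Ω]
    (m l : ℕ) (ρ : (Ω ≃ₐ[LaurentSeries k] Ω) →* P) (X : Ω) (z : R → Ω)
    (ρ' : (Ω ≃ₐ[LaurentSeries k] Ω) →* P) (Y : I → Ω) (Y' : J → Ω)
    (e : (Ω ≃ₐ[LaurentSeries k] Ω) → Multiplicative (I → ZMod p))
    (e' : (Ω ≃ₐ[LaurentSeries k] Ω) → Multiplicative (J → ZMod p)) : Prop where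
  fl : FL ρ'
  hY : ∀ i, Y i ^ p - Y i = tz k Ω (-((m * (p * l + 1) : ℕ) : ℤ)) (D.b i)
  hY0 : ∀ j ∈ D.J0, Y' j ^ p - Y' j =
    tz k Ω (-((m * (p * l + 1) : ℕ) : ℤ)) (D.w j) * X +
    tz k Ω (-((m * (p * l + 2) : ℕ) : ℤ)) (D.w j * 2⁻¹)
  hY1 : ∀ j, j ∉ D.J0 → Y' j ^ p - Y' j =
    ∑ i, ∑ r, tz k Ω (-((m * (p * l + 1) : ℕ) : ℤ)) (D.b i * ((D.θ j i r).val : ℕ)) * z r
  hρ : ∀ σ, ρ' σ = ρ σ * D.α (e σ) * D.γ (e' σ)
  he : ∀ σ i, σ (Y i) = Y i + zc p Ω (Multiplicative.ofAdd ((Multiplicative.toAdd (e σ)) i))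
  he' : ∀ σ j, σ (Y' j) = Y' j + (∑ i, zc p Ω (D.ζ i j (ρ σ)) * Y i) +
    zc p Ω (Multiplicative.ofAdd ((Multiplicative.toAdd (e' σ)) j))

/-- TWI: existence of the twist. -/
def ST_TWI : Prop :=
  ∀ (p : ℕ) [Fact p.Prime], p ≠ 2 → ∀ (k P I J R Ω : Type) [Field k] [IsAlgClosed k] [CharP k p]
    [Group P] [Finite P] [Fintype I] [Fintype J] [Fintype R] [Field Ω]
    [Algebra (LaurentSeries k) Ω], PCl p (LaurentSeries k) Ω → IsPGroup p P →
    ∀ (D : LBD p k P I J R) (m l : ℕ) (ρ : (Ω ≃ₐ[LaurentSeries k] Ω) →* P) (X : Ω) (z : R → Ω)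
    (c : R → k), Base D Ω m ρ X z c → ∃ ρ' Y Y' e e', Twist D Ω m l ρ X z ρ' Y Y' e e'

/-- TWS: the twist is surjective for large `l`. -/
def ST_TWS : Prop :=
  ∀ (p : ℕ) [Fact p.Prime], p ≠ 2 → ∀ (k P I J R Ω : Type) [Field k] [IsAlgClosed k] [CharP k p]
    [Group P] [Finite P] [Nontrivial P] [Fintype I] [Fintype J] [Fintype R] [Field Ω]
    [Algebra (LaurentSeries k) Ω], PCl p (LaurentSeries k) Ω → IsPGroup p P →
    ∀ (D : LBD p k P I J R) (m l : ℕ) (ρ : (Ω ≃ₐ[LaurentSeries k] Ω) →* P) (X : Ω) (z : R → Ω)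
    (c : R → k), 0 < m → ¬ p ∣ m → Base D Ω m ρ X z c →
    ∀ ρ' Y Y' e e', Twist D Ω m l ρ X z ρ' Y Y' e e' → ∀ u : ℚ, CondAt k Ω ρ u → u < l →
    Function.Surjective ρ'

/-- TWL: the conductor of the twist for large `l`. -/
def ST_TWL : Prop :=
  ∀ (p : ℕ) [Fact p.Prime], p ≠ 2 → ∀ (k P I J R Ω : Type) [Field k] [IsAlgClosed k] [CharP k p]
    [Group P] [Finite P] [Nontrivial P] [Fintype I] [Fintype J] [Fintype R] [Field Ω]
    [Algebra (LaurentSeries k) Ω], PCl p (LaurentSeries k) Ω → IsPGroup p P →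
    ∀ (D : LBD p k P I J R) (m l : ℕ) (ρ : (Ω ≃ₐ[LaurentSeries k] Ω) →* P) (X : Ω) (z : R → Ω)
    (c : R → k), ¬ p ∣ m → p ^ D.s < m → Base D Ω m ρ X z c →
    ∀ ρ' Y Y' e e', Twist D Ω m l ρ X z ρ' Y Y' e e' → ∀ u : ℚ, CondAt k Ω ρ u → u < l → 0 < l →
    ∃ (M : IntermediateField (LaurentSeries k) Ω) (_ : FiniteDimensional (LaurentSeries k) M)
      (_ : IsGalois (LaurentSeries k) M) (v : AddValuation M (WithTop ℤ)),
      M.fixingSubgroup ≤ ρ'.ker ∧ (∀ x, v x = ordL k M x) ∧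
      Phi (ram (G := M ≃ₐ[LaurentSeries k] M) v)
        (lev (ram (G := M ≃ₐ[LaurentSeries k] M) v) (mv ρ' M)) =
        (m : ℚ) * (p * l + 1) + (m : ℚ) / (p : ℚ) ^ D.s + 1

/-- LB: the lower bound. -/
def ST_LB : Prop :=
  ∀ (p : ℕ) [Fact p.Prime], p ≠ 2 → ∀ (k P I J R : Type) [Field k] [IsAlgClosed k] [CharP k p]
    [Group P] [Finite P] [Nontrivial P] [Fintype I] [Fintype J] [Fintype R], IsPGroup p P →
    ∀ (D : LBD p k P I J R), ∃ m : ℕ, ¬ p ∣ m ∧ ∃ l₀ : ℕ, ∀ l ≥ l₀,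
      ((m : ℚ) * (p * l + 1) + (m : ℚ) / (p : ℚ) ^ D.s) ∈ conds k P

/-- LT2: a noncentral element of order `p` in the second centre. -/
def ST_LT2 : Prop :=
  ∀ (p : ℕ) [Fact p.Prime], p ≠ 2 → ∀ (k P : Type) [Field k] [IsAlgClosed k] [CharP k p]
    [Group P] [Finite P], IsPGroup p P → ∀ a : P, a ∉ Subgroup.center P → a ^ p = 1 →
    (∀ g : P, a⁻¹ * g⁻¹ * a * g ∈ Subgroup.center P) → ∃ m : ℕ, ¬ p ∣ m ∧ ∃ l₀ : ℕ, ∀ l ≥ l₀,
      ((m : ℚ) * (p * l + 1) + (m : ℚ) / p) ∈ conds k P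

/-- LF1: an elementary abelian subgroup `A` with `[A, P] ≤ N`, `|N| = p`, `N` central. -/
def ST_LF1 : Prop :=
  ∀ (p : ℕ) [Fact p.Prime], p ≠ 2 → ∀ (k P : Type) [Field k] [IsAlgClosed k] [CharP k p]
    [Group P] [Finite P], IsPGroup p P → ∀ (N A : Subgroup P) (s : ℕ), 0 < s →
    N ≤ Subgroup.center P → Nat.card N = p → (∀ a ∈ A, a ^ p = 1) →
    (∀ a ∈ A, ∀ b ∈ A, a * b = b * a) → (∀ a ∈ A, ∀ g : P, a⁻¹ * g⁻¹ * a * g ∈ N) →
    (Subgroup.centralizer (A : Set P)).index = p ^ s → ∃ m : ℕ, ¬ p ∣ m ∧ ∃ l₀ : ℕ, ∀ l ≥ l₀,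
      ((m : ℚ) * (p * l + 1) + (m : ℚ) / (p : ℚ) ^ s) ∈ conds k P

/-- WRT: an elementary abelian normal subgroup with a basis permuted transitively. -/
def ST_WRT : Prop :=
  ∀ (p : ℕ) [Fact p.Prime], p ≠ 2 → ∀ (k P W : Type) [Field k] [IsAlgClosed k] [CharP k p]
    [Group P] [Finite P] [Fintype W] [Nonempty W] [MulAction P W] [MulAction.IsPretransitive P W],
    IsPGroup p P → ∀ α : Multiplicative (W → ZMod p) →* P, Function.Injective α →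
    (∀ (g : P) (n : W → ZMod p), g * α (Multiplicative.ofAdd n) * g⁻¹ =
      α (Multiplicative.ofAdd fun x => n (g⁻¹ • x))) →
    ∀ B : ℕ, ∃ n : ℕ, B ≤ n ∧ ¬ p ∣ n ∧ ((n : ℚ) / (Fintype.card W : ℚ) - 1) ∈ conds k P

/-- WR1: the twist by an induced module. -/
def ST_WR1 : Prop :=
  ∀ (p : ℕ) [Fact p.Prime] (k P W Ω : Type) [Field k] [IsAlgClosed k] [CharP k p]
    [Group P] [Finite P] [Fintype W] [MulAction P W] [MulAction.IsPretransitive P W] [Field Ω]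
    [Algebra (LaurentSeries k) Ω], PCl p (LaurentSeries k) Ω → IsPGroup p P →
    ∀ α : Multiplicative (W → ZMod p) →* P,
    (∀ (g : P) (n : W → ZMod p), g * α (Multiplicative.ofAdd n) * g⁻¹ =
      α (Multiplicative.ofAdd fun x => n (g⁻¹ • x))) →
    ∀ ρ : (Ω ≃ₐ[LaurentSeries k] Ω) →* P, FL ρ → Function.Surjective ρ →
    ∀ (x₀ : W) (x₁ : Ω), (∀ σ : Ω ≃ₐ[LaurentSeries k] Ω, ρ σ • x₀ = x₀ → σ x₁ = x₁) →
    ∃ (κ : k) (x Y : W → Ω) (e : (Ω ≃ₐ[LaurentSeries k] Ω) → W → Multiplicative (ZMod p))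
      (ρ' : (Ω ≃ₐ[LaurentSeries k] Ω) →* P), κ ≠ 0 ∧ x x₀ = tz k Ω 0 κ * x₁ ∧
      (∀ σ w, σ (x w) = x (ρ σ • w)) ∧ (∀ w, Y w ^ p - Y w = x w) ∧
      (∀ σ w, σ (Y w) = Y (ρ σ • w) + zc p Ω (e σ (ρ σ • w))) ∧
      (∀ σ, ρ' σ = α (Multiplicative.ofAdd fun w => Multiplicative.toAdd (e σ w)) * ρ σ) ∧
      FL ρ' ∧ Function.Surjective ρ'

/-! ## F. Groups with an abelian subgroup of index `p` -/

/-- GRA: a noncentral element of order `p` can be chosen in the second centre. -/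
def ST_GRA : Prop :=
  ∀ (p : ℕ) [Fact p.Prime], p ≠ 2 → ∀ (P : Type) [Group P] [Finite P], IsPGroup p P →
    ∀ B : Subgroup P, B.index = p → (∀ a ∈ B, ∀ b ∈ B, a * b = b * a) →
    (∃ x : P, x ∉ Subgroup.center P ∧ x ^ p = 1) →
    ∃ a : P, a ∉ Subgroup.center P ∧ a ^ p = 1 ∧
      ∀ g : P, a⁻¹ * g⁻¹ * a * g ∈ Subgroup.center P

/-- GRB: structure of nonabelian groups with an abelian subgroup of index `p` all of whose
elements of order `p` are central. -/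
def ST_GRB : Prop :=
  ∀ (p : ℕ) [Fact p.Prime], p ≠ 2 → ∀ (P : Type) [Group P] [Finite P], IsPGroup p P →
    ∀ B : Subgroup P, B.index = p → (∀ a ∈ B, ∀ b ∈ B, a * b = b * a) →
    (∀ x : P, x ^ p = 1 → x ∈ Subgroup.center P) → (∃ x : P, x ∉ Subgroup.center P) →
    Subgroup.center P ≤ B ∧ (∀ x y : P, x⁻¹ * y⁻¹ * x * y ∈ Subgroup.center P) ∧
    (∀ x y : P, (x⁻¹ * y⁻¹ * x * y) ^ p = 1) ∧ (∀ x : P, x ^ p ∈ Subgroup.center P) ∧
    (∀ g : P, g ∉ B → ∀ b ∈ B, g ^ p ≠ b ^ p) ∧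
    (∀ g : P, g ∉ B → ∀ χ : B →* Multiplicative (ZMod p),
      (∀ b : B, (b : P) ∈ Subgroup.center P → χ b = 1) →
      ∃ f : P →* Multiplicative (ZMod p), f g = 1 ∧ (∀ x ∈ Subgroup.center P, f x = 1) ∧
        ∀ b : B, f (b : P) = χ b)

/-- EXS: extraspecial groups of odd order have a large elementary abelian normal subgroup. -/
def ST_EXS : Prop :=
  ∀ (p : ℕ) [Fact p.Prime], p ≠ 2 → ∀ (P : Type) [Group P] [Finite P] (s : ℕ), 0 < s →
    Nat.card P = p ^ (2 * s + 1) → Nat.card (Subgroup.center P) = p →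
    commutator P ≤ Subgroup.center P → ∃ A : Subgroup P, A.index = p ^ s ∧
      (∀ a ∈ A, a ^ p = 1) ∧ (∀ a ∈ A, ∀ b ∈ A, a * b = b * a) ∧
      (∀ a ∈ A, ∀ g : P, a⁻¹ * g⁻¹ * a * g ∈ Subgroup.center P) ∧
      (Subgroup.centralizer (A : Set P)).index = p ^ s

/-- `P` is the wreath product of `B` and `Q` over `W`: a semidirect product of the group of
functions `W → B` with `Q`, where `Q` permutes the coordinates. -/
structure Wreath (P W B Q : Type) [Group P] [Group B] [Group Q] [MulAction Q W] where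
  fn : (W → B) →* P
  top : Q →* P
  fni : Function.Injective fn
  topi : Function.Injective top
  conj : ∀ (g : Q) (f : W → B), top g * fn f * (top g)⁻¹ = fn fun x => f (g⁻¹ • x)
  dis : ∀ (f : W → B) (g : Q), fn f = top g → g = 1
  gen : ∀ x : P, ∃ (f : W → B) (g : Q), x = fn f * top g

/-- WRG: group theory of transitive wreath products. -/
def ST_WRG : Prop :=
  ∀ (p : ℕ) [Fact p.Prime] (P W B Q : Type) [Group P] [Finite P] [CommGroup B] [Nontrivial B]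
    [Group Q] [MulAction Q W] [MulAction.IsPretransitive Q W] [FaithfulSMul Q W] [Fintype W]
    [Nonempty W], IsPGroup p P → Wreath P W B Q →
    (∃ r, Fintype.card W = p ^ r) ∧
    (∀ N : Subgroup P, N ≤ Subgroup.center P → Nat.card N = p →
      ∃ H : Subgroup P, N ⊓ ⁅H, H⁆ = ⊥ ∧ H.index = Fintype.card W) ∧
    ∃ (_ : MulAction P W) (α : Multiplicative (W → ZMod p) →* P),
      MulAction.IsPretransitive P W ∧ Function.Injective α ∧
      ∀ (g : P) (n : W → ZMod p), g * α (Multiplicative.ofAdd n) * g⁻¹ =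
        α (Multiplicative.ofAdd fun x => n (g⁻¹ • x))

/-- INX: extension of invariant linear characters from a normal subgroup of prime index. -/
def ST_INX : Prop :=
  ∀ (p : ℕ) [Fact p.Prime] (G : Type) [Group G] [Finite G] (H : Subgroup G) [H.Normal],
    H.index = p → ∀ ψ : H →* ℂˣ,
    (∀ (g : G) (h h' : H), (h' : G) = g⁻¹ * (h : G) * g → ψ h' = ψ h) →
    ∃ ω : G →* ℂˣ, ∀ h : H, ω (h : G) = ψ h

/-- the auxiliary data of the proof that `N_P = 1`; `G = Gal(M/K)`, `π : G → P` -/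
structure Aux (p : ℕ) {G M P : Type} [Field M] [Group G] [Fintype G]
    [MulSemiringAction G M] [Group P] (v : AddValuation M (WithTop ℤ)) (π : G →* P)
    (B : Subgroup P) (lam : P →* Multiplicative (ZMod p)) (z : M) (j : ℕ)
    (F : (P →* Multiplicative (ZMod p)) → M) (J : (P →* Multiplicative (ZMod p)) → ℕ)
    (Y : (P →* Multiplicative (ZMod p)) → M) : Prop where
  ker : lam.ker = B
  lne : lam ≠ 1
  jpos : 0 < j
  jp : ¬ p ∣ j
  az : ∀ g : G, g • z = z + zc p M (lam (π g))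
  vz : v (z ^ p - z) = ((-((j * Nat.card G : ℕ) : ℤ) : ℤ) : WithTop ℤ)
  aF : ∀ (f : P →* Multiplicative (ZMod p)) (g : G), g • F f = F f + zc p M (f (π g))
  F1 : F 1 = 0
  Jp : ∀ f, f ≠ 1 → 0 < J f ∧ ¬ p ∣ J f
  vF : ∀ f, f ≠ 1 → v (F f ^ p - F f) = ((-((J f * Nat.card G : ℕ) : ℤ) : ℤ) : WithTop ℤ)
  hY : ∀ f, Y f ^ p - Y f = (F f ^ p - F f) * z

/-- AUX: every conductor is computed at a level with auxiliary data. -/
def ST_AUX : Prop :=
  ∀ (p : ℕ) [Fact p.Prime] (k P : Type) [Field k] [IsAlgClosed k] [CharP k p] [Group P] [Finite P]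
    [Nontrivial P], IsPGroup p P → ∀ (lam : P →* Multiplicative (ZMod p)), lam ≠ 1 →
    ∀ c ∈ conds k P, ∃ (G M : Type) (_ : Field M) (_ : Group G) (_ : Fintype G)
      (_ : MulSemiringAction G M) (ι : k →+* M) (v : AddValuation M (WithTop ℤ)) (π : G →* P)
      (z : M) (j : ℕ) (F : (P →* Multiplicative (ZMod p)) → M)
      (J : (P →* Multiplicative (ZMod p)) → ℕ) (Y : (P →* Multiplicative (ZMod p)) → M),
      GS G ι v ∧ IsPGroup p G ∧ Function.Surjective π ∧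
      Aux p v π lam.ker lam z j F J Y ∧
      c + 1 = Phi (ram (G := G) v) (lev (ram (G := G) v) {g | π g ≠ 1})

/-- THB: the Heisenberg classes `θ_f` and the decomposition `ψ = ω θ_f`. -/
def ST_THB : Prop :=
  ∀ (p : ℕ) [Fact p.Prime], p ≠ 2 → ∀ (G k M P : Type) [Field k] [IsAlgClosed k] [CharP k p]
    [Field M] [Group G] [Fintype G] [MulSemiringAction G M] [Group P] [Finite P] (ι : k →+* M)
    (v : AddValuation M (WithTop ℤ)) (π : G →* P) (B : Subgroup P)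
    (lam : P →* Multiplicative (ZMod p)) (z : M) (j : ℕ)
    (F : (P →* Multiplicative (ZMod p)) → M) (J : (P →* Multiplicative (ZMod p)) → ℕ)
    (Y : (P →* Multiplicative (ZMod p)) → M), GS G ι v → IsPGroup p G → Function.Surjective π →
    Aux p v π B lam z j F J Y → (∀ a ∈ B, ∀ b ∈ B, a * b = b * a) →
    (Subgroup.center P ≤ B ∧ (∀ x y : P, x⁻¹ * y⁻¹ * x * y ∈ Subgroup.center P) ∧
    (∀ x y : P, (x⁻¹ * y⁻¹ * x * y) ^ p = 1) ∧ (∀ x : P, x ^ p ∈ Subgroup.center P) ∧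
    (∀ g : P, g ∉ B → ∀ χ : B →* Multiplicative (ZMod p),
      (∀ b : B, (b : P) ∈ Subgroup.center P → χ b = 1) →
      ∃ f : P →* Multiplicative (ZMod p), f g = 1 ∧ (∀ x ∈ Subgroup.center P, f x = 1) ∧
        ∀ b : B, f (b : P) = χ b)) →
    ∀ ψ : B →* ℂˣ, ∃ (f : P →* Multiplicative (ZMod p)) (ω : G →* ℂˣ)
      (θ : G → Multiplicative (ZMod p)) (ε : ℂˣ), (∀ x ∈ Subgroup.center P, f x = 1) ∧ ε ^ p = 1 ∧
      (∀ g : G, π g ∈ B → g • Y f = Y f + zc p M (θ g)) ∧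
      (∀ (g : G) (b : B), (b : P) = π g → ψ b = ω g * ε ^ (Multiplicative.toAdd (θ g)).val) ∧
      (∀ g : G, θ (g ^ p) = 1) ∧ (f = 1 → ∀ g : G, π g ∈ B → θ g = 1) ∧
      Phi (ram (G := G) v) (lev (ram (G := G) v) {g | π g ∈ B ∧ g • Y f ≠ Y f}) ≤
        (if f = 1 then 0 else J f) + j + 1

/-- NP1: integrality of all conductors when all elements of order `p` are central. -/
def ST_NP1 : Prop :=
  ∀ (p : ℕ) [Fact p.Prime], p ≠ 2 → ∀ (k P : Type) [Field k] [IsAlgClosed k] [CharP k p]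
    [Group P] [Finite P] [Nontrivial P], IsPGroup p P → ∀ B : Subgroup P, B.index = p →
    (∀ a ∈ B, ∀ b ∈ B, a * b = b * a) → (∀ x : P, x ^ p = 1 → x ∈ Subgroup.center P) →
    ∀ c ∈ conds k P, ∃ m : ℤ, c = m

/-- NPC: reading off `N_P`. -/
def ST_NPC : Prop :=
  ∀ (p : ℕ) [Fact p.Prime] (k P : Type) [Field k] [Group P] (s : ℕ),
    ((∀ c ∈ conds k P, ∃ m : ℤ, c * (p ^ s : ℕ) = m) →
      (∀ B : ℚ, ∃ c ∈ conds k P, B ≤ c ∧ ∃ n : ℤ, ¬ (p : ℤ) ∣ n ∧ c * (p ^ s : ℕ) = n) →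
      IsNP k P (p ^ s)) ∧
    ((∀ c ∈ conds k P, ∃ m : ℤ, c = m) → IsNP k P 1) ∧
    (∀ N D : ℕ, 0 < D → (∀ c ∈ conds k P, ∃ m : ℤ, c * D = m) → IsNP k P N → N ∣ D) ∧
    (∀ N : ℕ, (∀ B : ℚ, ∃ c ∈ conds k P, B ≤ c ∧ ∃ n : ℤ, ¬ (p : ℤ) ∣ n ∧
      c * (p ^ s : ℕ) = n) → IsNP k P N → p ^ s ∣ N)

/-- MNA: the main theorem for groups with an abelian subgroup of index `p`. -/
def ST_MNA : Prop :=
  ∀ (p : ℕ) [Fact p.Prime], p ≠ 2 → ∀ (k P : Type) [Field k] [IsAlgClosed k] [CharP k p]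
    [Group P] [Finite P] [Nontrivial P], IsPGroup p P → ∀ B : Subgroup P, B.index = p →
    (∀ a ∈ B, ∀ b ∈ B, a * b = b * a) →
    IsNP k P (if ∃ x : P, x ∉ Subgroup.center P ∧ x ^ p = 1 then p else 1)

end Pool.Agent.Helper22.NP
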